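import Pool.Agent.H598.WA.Final

set_option autoImplicit false

/-!
Task CX-T4 (helper598), proved by helper401: local solutions at infinity give leading coefficients.
-/

namespace Pool.Agent.H401.CX

open Finset Polynomial WithZero IsDedekindDomain Pool.Agent.H598.WA

/-- Approximation of a zero of a diagonal form. -/
theorem step1 {K L : Type*} [Field K] [Field L] [Valued L (WithZero (Multiplicative ℤ))]
    [Algebra K L] (hd : DenseRange (algebraMap K L))
    (hnt : ∃ c : K, c ≠ 0 ∧ (Valued.v (algebraMap K L c) : WithZero (Multiplicative ℤ)) < 1)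
    {t k : ℕ} (hk : 1 ≤ k) (a : Fin t → K) (ha : ∀ i, a i ≠ 0) (x : Fin t → L) (hx0 : x ≠ 0)
    (hx : ∑ i, algebraMap K L (a i) * x i ^ k = 0)
    (w : Valuation K (WithZero (Multiplicative ℤ)))
    (hw : ∀ y, w y = (Valued.v (algebraMap K L y) : WithZero (Multiplicative ℤ))) :
    ∃ (ζ : Fin t → K) (i₀ : Fin t), (∀ i, ζ i ≠ 0) ∧
      (∀ i, w (a i * ζ i ^ k) ≤ w (a i₀ * ζ i₀ ^ k)) ∧
      w (∑ i, a i * ζ i ^ k) < w (a i₀ * ζ i₀ ^ k) := by
  classical
  obtain ⟨l, hl⟩ := Function.ne_iff.1 hx0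
  have hl : x l ≠ 0 := hl
  have : Nonempty (Fin t) := ⟨l⟩
  obtain ⟨V, hV⟩ : ∃ V : Valuation L (WithZero (Multiplicative ℤ)), V = Valued.v := ⟨_, rfl⟩
  obtain ⟨i₀, hi₀⟩ := Finite.exists_max fun i => V (algebraMap K L (a i) * x i ^ k)
  obtain ⟨i₁, hi₁⟩ := Finite.exists_max fun i => V (x i)
  obtain ⟨i₂, hi₂⟩ := Finite.exists_max fun i => V (algebraMap K L (a i))
  obtain ⟨M, hM⟩ : ∃ M, M = V (algebraMap K L (a i₀) * x i₀ ^ k) := ⟨_, rfl⟩
  obtain ⟨B, hB⟩ : ∃ B, B = V (x i₁) := ⟨_, rfl⟩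
  obtain ⟨G, hG⟩ : ∃ G, G = V (algebraMap K L (a i₂)) := ⟨_, rfl⟩
  have hM0 : 0 < M := by
    rw [hM]
    refine lt_of_lt_of_le ?_ (hi₀ l)
    exact (Valuation.pos_iff V).2 (mul_ne_zero ((_root_.map_ne_zero _).2 (ha l)) (pow_ne_zero _ hl))
  have hB0 : 0 < B := by
    rw [hB]
    refine lt_of_lt_of_le ?_ (hi₁ l)
    exact (Valuation.pos_iff V).2 hl
  have hG0 : 0 < G := by
    rw [hG]
    exact (Valuation.pos_iff V).2 ((_root_.map_ne_zero _).2 (ha i₂))
  have hGB0 : 0 < G * B ^ (k - 1) := mul_pos hG0 (pow_pos hB0 _)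
  obtain ⟨δ, hδ⟩ : ∃ δ, δ = min B (M / (G * B ^ (k - 1))) := ⟨_, rfl⟩
  have hδ0 : 0 < δ := by
    rw [hδ]
    exact lt_min hB0 (div_pos hM0 hGB0)
  have hnear : ∀ i, ∃ ζ : K, ζ ≠ 0 ∧ V (algebraMap K L ζ - x i) < δ := fun i => by
    rw [hV]
    exact ap_near (K := K) hd hnt hδ0.ne' (x i)
  choose ζ hζ0 hζ using hnear
  have hζB : ∀ i, V (algebraMap K L (ζ i)) ≤ B := fun i => by
    have h1 : algebraMap K L (ζ i) = (algebraMap K L (ζ i) - x i) + x i := by ring
    rw [h1]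
    refine V.map_add_le ((hζ i).le.trans ?_) ?_
    · rw [hδ]; exact min_le_left _ _
    · rw [hB]; exact hi₁ i
  have hdiff : ∀ i, V (algebraMap K L (a i * ζ i ^ k) - algebraMap K L (a i) * x i ^ k) < M := by
    intro i
    have h1 : algebraMap K L (a i * ζ i ^ k) - algebraMap K L (a i) * x i ^ k =
        algebraMap K L (a i) * (algebraMap K L (ζ i) ^ k - x i ^ k) := by
      rw [map_mul, map_pow]; ring
    rw [h1, map_mul]
    have h2 : V (algebraMap K L (ζ i) ^ k - x i ^ k) ≤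
        V (algebraMap K L (ζ i) - x i) * B ^ (k - 1) :=
      val_pow_sub V (hζB i) (hB ▸ hi₁ i) hk
    have h3 : V (algebraMap K L (ζ i) - x i) < M / (G * B ^ (k - 1)) := by
      refine lt_of_lt_of_le (hζ i) ?_
      rw [hδ]; exact min_le_right _ _
    calc V (algebraMap K L (a i)) * V (algebraMap K L (ζ i) ^ k - x i ^ k) ≤
          G * (V (algebraMap K L (ζ i) - x i) * B ^ (k - 1)) :=
            mul_le_mul' (hG ▸ hi₂ i) h2
      _ = V (algebraMap K L (ζ i) - x i) * (G * B ^ (k - 1)) := by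
            rw [mul_left_comm]
      _ < M := (lt_div_iff₀ hGB0).1 h3
  have hle : ∀ i, V (algebraMap K L (a i * ζ i ^ k)) ≤ M := fun i => by
    have h1 : algebraMap K L (a i * ζ i ^ k) =
      (algebraMap K L (a i * ζ i ^ k) - algebraMap K L (a i) * x i ^ k) +
        algebraMap K L (a i) * x i ^ k := by ring
    rw [h1]
    exact V.map_add_le (hdiff i).le (hM ▸ hi₀ i)
  have heq : V (algebraMap K L (a i₀ * ζ i₀ ^ k)) = M := by
    have h1 : algebraMap K L (a i₀ * ζ i₀ ^ k) =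
      (algebraMap K L (a i₀ * ζ i₀ ^ k) - algebraMap K L (a i₀) * x i₀ ^ k) +
        algebraMap K L (a i₀) * x i₀ ^ k := by ring
    rw [h1, hM]
    exact V.map_add_eq_of_lt_right (hM ▸ hdiff i₀)
  have hsum : V (algebraMap K L (∑ i, a i * ζ i ^ k)) < M := by
    have h1 : algebraMap K L (∑ i, a i * ζ i ^ k) =
        ∑ i, (algebraMap K L (a i * ζ i ^ k) - algebraMap K L (a i) * x i ^ k) := by
      rw [map_sum, Finset.sum_sub_distrib, hx, sub_zero]
    rw [h1]
    exact V.map_sum_lt hM0.ne' fun i _ => hdiff i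
  refine ⟨ζ, i₀, hζ0, fun i => ?_, ?_⟩
  · rw [hw, hw, ← hV, heq]
    exact hle i
  · rw [hw, hw, ← hV, heq]
    exact hsum

variable {F : Type*} [Field F]

/-- Passage to the leading coefficients. -/
theorem step2 [DecidableEq (RatFunc F)] {t k : ℕ} (hk : 1 ≤ k) (b : Fin t → F[X])
    (hb : ∀ i, b i ≠ 0) (ζ : Fin t → RatFunc F) (hζ : ∀ i, ζ i ≠ 0) (i₀ : Fin t)
    (h1 : ∀ i, RatFunc.inftyValuation F (algebraMap F[X] (RatFunc F) (b i) * ζ i ^ k) ≤
      RatFunc.inftyValuation F (algebraMap F[X] (RatFunc F) (b i₀) * ζ i₀ ^ k))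
    (h2 : RatFunc.inftyValuation F (∑ i, algebraMap F[X] (RatFunc F) (b i) * ζ i ^ k) <
      RatFunc.inftyValuation F (algebraMap F[X] (RatFunc F) (b i₀) * ζ i₀ ^ k)) :
    ∃ (D : ℕ) (c : Fin t → F) (u : Fin t → ℕ), (∃ i, c i ≠ 0) ∧
      (∀ i, c i ≠ 0 → (b i).natDegree + k * u i = D) ∧
      ∑ i, (b i).leadingCoeff * c i ^ k = 0 := by
  classical
  obtain ⟨d, hd⟩ := IsLocalization.exist_integer_multiples (nonZeroDivisors F[X])
    (Finset.univ : Finset (Fin t)) ζ
  have hd' : ∀ i, ∃ z : F[X], algebraMap F[X] (RatFunc F) z =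
      algebraMap F[X] (RatFunc F) (d : F[X]) * ζ i := fun i => by
    obtain ⟨z, hz⟩ := hd i (Finset.mem_univ i)
    refine ⟨z, ?_⟩
    rw [hz, Algebra.smul_def]
  choose z hz using hd'
  have hd0 : (d : F[X]) ≠ 0 := nonZeroDivisors.coe_ne_zero d
  have hinj : Function.Injective (algebraMap F[X] (RatFunc F)) :=
    IsFractionRing.injective F[X] (RatFunc F)
  have hdK : algebraMap F[X] (RatFunc F) (d : F[X]) ≠ 0 := by
    rw [Ne, map_eq_zero_iff _ hinj]
    exact hd0
  have hz0 : ∀ i, z i ≠ 0 := fun i h => by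
    have h3 := hz i
    rw [h, map_zero] at h3
    exact mul_ne_zero hdK (hζ i) h3.symm
  obtain ⟨P, hP⟩ : ∃ P : Fin t → F[X], ∀ i, P i = b i * z i ^ k := ⟨_, fun i => rfl⟩
  have hP0 : ∀ i, P i ≠ 0 := fun i => by
    rw [hP]
    exact mul_ne_zero (hb i) (pow_ne_zero _ (hz0 i))
  have hPK : ∀ i, algebraMap F[X] (RatFunc F) (P i) =
      algebraMap F[X] (RatFunc F) (d : F[X]) ^ k *
        (algebraMap F[X] (RatFunc F) (b i) * ζ i ^ k) := fun i => by
    rw [hP, map_mul, map_pow, hz]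
    ring
  have hPd : ∀ i, (P i).natDegree = (b i).natDegree + k * (z i).natDegree := fun i => by
    rw [hP, natDegree_mul (hb i) (pow_ne_zero _ (hz0 i)), natDegree_pow]
  have hPv : ∀ i, (exp ((P i).natDegree : ℤ) : WithZero (Multiplicative ℤ)) =
      RatFunc.inftyValuation F (algebraMap F[X] (RatFunc F) (d : F[X]) ^ k) *
        RatFunc.inftyValuation F (algebraMap F[X] (RatFunc F) (b i) * ζ i ^ k) := fun i => by
    rw [← val_inf_poly (hP0 i), hPK, map_mul]
  have hdv : 0 < RatFunc.inftyValuation F (algebraMap F[X] (RatFunc F) (d : F[X]) ^ k) :=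
    (Valuation.pos_iff _).2 (pow_ne_zero _ hdK)
  have hdeg : ∀ i, (P i).natDegree ≤ (P i₀).natDegree := fun i => by
    have h3 : (exp ((P i).natDegree : ℤ) : WithZero (Multiplicative ℤ)) ≤
        exp ((P i₀).natDegree : ℤ) := by
      rw [hPv, hPv]
      exact mul_le_mul' le_rfl (h1 i)
    rw [exp_le_exp] at h3
    exact_mod_cast h3
  have hsum : (∑ i, P i).coeff (P i₀).natDegree = 0 := by
    by_cases h0 : ∑ i, P i = 0
    · rw [h0, coeff_zero]
    · apply coeff_eq_zero_of_natDegree_lt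
      have h3 : (exp ((∑ i, P i).natDegree : ℤ) : WithZero (Multiplicative ℤ)) <
          exp ((P i₀).natDegree : ℤ) := by
        rw [← val_inf_poly h0, hPv i₀]
        have h4 : algebraMap F[X] (RatFunc F) (∑ i, P i) =
            algebraMap F[X] (RatFunc F) (d : F[X]) ^ k *
              ∑ i, algebraMap F[X] (RatFunc F) (b i) * ζ i ^ k := by
          rw [map_sum, Finset.mul_sum]
          exact Finset.sum_congr rfl fun i _ => hPK i
        rw [h4, map_mul]
        exact mul_lt_mul_of_pos_left h2 hdv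
      rw [exp_lt_exp] at h3
      exact_mod_cast h3
  obtain ⟨c, hc⟩ : ∃ c : Fin t → F, ∀ i, c i =
      if (P i).natDegree = (P i₀).natDegree then (z i).leadingCoeff else 0 := ⟨_, fun i => rfl⟩
  refine ⟨(P i₀).natDegree, c, fun i => (z i).natDegree, ⟨i₀, ?_⟩, fun i hi => ?_, ?_⟩
  · rw [hc, if_pos rfl]
    exact leadingCoeff_ne_zero.2 (hz0 i₀)
  · by_contra h3
    apply hi
    rw [hc, if_neg]
    rw [hPd i]
    exact h3
  · have h4 : (∑ i, P i).coeff (P i₀).natDegree = ∑ i, (P i).coeff (P i₀).natDegree :=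
      finset_sum_coeff _ _ _
    refine Eq.trans (Finset.sum_congr rfl fun i _ => ?_) (h4.symm.trans hsum)
    rw [hc]
    by_cases h3 : (P i).natDegree = (P i₀).natDegree
    · rw [if_pos h3, ← h3]
      show _ = (P i).leadingCoeff
      rw [hP, leadingCoeff_mul, leadingCoeff_pow]
    · rw [if_neg h3, zero_pow (by omega), mul_zero]
      exact (coeff_eq_zero_of_natDegree_lt (lt_of_le_of_ne (hdeg i) h3)).symm

/-- Local solutions at infinity: the leading coefficients. -/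
theorem loc_inf [DecidableEq (RatFunc F)] {t k : ℕ} (hk : 1 ≤ k) (b : Fin t → F[X])
    (hb : ∀ i, b i ≠ 0) (x : Fin t → RatFunc.CompletionAtInfty F) (hx : x ≠ 0)
    (h : ∑ i, algebraMap (RatFunc F) (RatFunc.CompletionAtInfty F)
      (algebraMap F[X] (RatFunc F) (b i)) * x i ^ k = 0) :
    ∃ (D : ℕ) (c : Fin t → F) (u : Fin t → ℕ), (∃ i, c i ≠ 0) ∧
      (∀ i, c i ≠ 0 → (b i).natDegree + k * u i = D) ∧
      ∑ i, (b i).leadingCoeff * c i ^ k = 0 := by
  have hinj : Function.Injective (algebraMap F[X] (RatFunc F)) :=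
    IsFractionRing.injective F[X] (RatFunc F)
  obtain ⟨ζ, i₀, hζ, h1, h2⟩ := step1 (K := RatFunc F) (L := RatFunc.CompletionAtInfty F) dense_inf
    (by
      refine ⟨(RatFunc.X)⁻¹, inv_ne_zero RatFunc.X_ne_zero, ?_⟩
      rw [val_inf, map_inv₀, RatFunc.inftyValuation.X, ← exp_neg, ← exp_zero, exp_lt_exp]
      omega)
    hk (fun i => algebraMap F[X] (RatFunc F) (b i))
    (fun i => by rw [Ne, map_eq_zero_iff _ hinj]; exact hb i) x hx h
    (RatFunc.inftyValuation F) (fun y => (val_inf y).symm)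
  exact step2 hk b hb ζ hζ i₀ h1 h2

end Pool.Agent.H401.CX
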